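import Pool.Agent.H188.LC.Order
import Pool.Agent.H188.LB.Word

set_option autoImplicit false

namespace Pool.Agent.H188.LC

open Pool.Agent.H188.LB hiding S_good Nr t_good

theorem exists_untouched (C : Finset (ℤ × ℤ)) (a : ℤ) :
    ∃ u, a ≤ u ∧ u ≤ a + C.card ∧ ∀ l, (u, l) ∉ C := by
  classical
  by_contra hcon
  push Not at hcon
  have hsub : Finset.Icc a (a + C.card) ⊆ C.image Prod.fst := by
    intro u hu
    rw [Finset.mem_Icc] at hu
    obtain ⟨l, hl⟩ := hcon u hu.1 hu.2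
    exact Finset.mem_image.mpr ⟨(u, l), hl, rfl⟩
  have h1 := (Finset.card_le_card hsub).trans Finset.card_image_le
  rw [Int.card_Icc] at h1
  omega

/-- existence of the critical scale -/
theorem exists_crit {F : ℤ → ℤ} (hF : Monotone F) {L : ℤ} (hL : 1 ≤ L) (x : ℤ) :
    ∃ g, 1 ≤ g ∧ g ≤ L ∧ g ≤ 12 * (cnt (Nr F x) g : ℤ) ∧
      ∀ S, g < S → S ≤ L → 12 * (cnt (Nr F x) S : ℤ) < S := by
  classical
  have hone : 1 ≤ cnt (Nr F x) 1 := by
    obtain ⟨c, l, h1, h2, h3⟩ := tch_one hF x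
    unfold cnt
    rw [Nat.succ_le_iff, Finset.card_pos]
    refine ⟨1, ?_⟩
    rw [Finset.mem_filter, Finset.mem_Ico]
    exact ⟨⟨le_rfl, by norm_num⟩, c, l, by omega, by omega, h3⟩
  have hne : ((Finset.Icc 1 L).filter (fun s => s ≤ 12 * (cnt (Nr F x) s : ℤ))).Nonempty := by
    refine ⟨1, ?_⟩
    rw [Finset.mem_filter, Finset.mem_Icc]
    exact ⟨⟨le_rfl, hL⟩, by omega⟩
  obtain ⟨g, hg, hmax⟩ := Finset.exists_max_image _ (fun s => s) hne
  rw [Finset.mem_filter, Finset.mem_Icc] at hg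
  refine ⟨g, hg.1.1, hg.1.2, hg.2, ?_⟩
  intro S hS hSL
  by_contra hcon
  push Not at hcon
  have := hmax S (by
    rw [Finset.mem_filter, Finset.mem_Icc]
    exact ⟨⟨by omega, hSL⟩, hcon⟩)
  omega

open Classical in
/-- the recorded scales at `x` -/
noncomputable def Rset (F : ℤ → ℤ) (BB : ℤ → ℤ → Prop) (x g : ℤ) : Finset ℤ :=
  (Finset.Ico g (4 * g)).filter (fun v => ∃ l, RL F BB x g v l)

theorem Rset_card {F : ℤ → ℤ} {BB : ℤ → ℤ → Prop} {x g : ℤ}
    (h : g ≤ 12 * (cnt (Nr F x) g : ℤ)) (hBB : ∀ c v, v < 4 * g → BB c v → Nr F c v) :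
    g ≤ 12 * ((Rset F BB x g).card : ℤ) := by
  classical
  have hle : cnt (Nr F x) g ≤ (Rset F BB x g).card := by
    unfold cnt
    apply Finset.card_le_card_of_injOn (fun u => if ∃ c l, x - 14 * u ≤ c ∧ c ≤ x + 14 * u ∧
      Tch F c u l ∧ ¬ BB c (2 * u) then u else 2 * u)
    · intro u hu
      rw [Finset.mem_coe, Finset.mem_filter, Finset.mem_Ico] at hu
      obtain ⟨⟨h1, h2⟩, hN⟩ := hu
      rw [Finset.mem_coe]
      unfold Rset
      by_cases hc : ∃ c l, x - 14 * u ≤ c ∧ c ≤ x + 14 * u ∧ Tch F c u l ∧ ¬ BB c (2 * u)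
      · simp only [if_pos hc]
        obtain ⟨c, l, h3, h4, h5, h6⟩ := hc
        rw [Finset.mem_filter, Finset.mem_Ico]
        exact ⟨⟨by omega, by omega⟩, l, by omega, by omega, c, by omega, by omega, h5, Or.inl h6⟩
      · simp only [if_neg hc]
        obtain ⟨c, l, h3, h4, h5⟩ := hN
        have h6 : BB c (2 * u) := by
          by_contra h7
          exact hc ⟨c, l, h3, h4, h5, h7⟩
        obtain ⟨c', l', k1, k2, k3⟩ := hBB c (2 * u) (by omega) h6
        rw [Finset.mem_filter, Finset.mem_Ico]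
        exact ⟨⟨by omega, by omega⟩, l', by omega, by omega, c', by omega, by omega, k3,
          Or.inr (by omega)⟩
    · intro u hu v hv huv
      rw [Finset.mem_coe, Finset.mem_filter, Finset.mem_Ico] at hu hv
      simp only at huv
      split_ifs at huv <;> omega
  omega

/-- scales touched near `x` if small, anywhere if large -/
def BB (F : ℤ → ℤ) (C : Finset (ℤ × ℤ)) (M0 x u : ℤ) : Prop :=
  (u ≤ M0 ∧ Nr F x u) ∨ (M0 < u ∧ ∃ l, (u, l) ∈ C)

theorem main_aux {F : ℤ → ℤ} (hF : Monotone F) {A : ℤ} {C : Finset (ℤ × ℤ)}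
    (hC : ∀ c u l, 1 ≤ u → u ≤ c → c + u ≤ A → Tch F c u l → (u, l) ∈ C)
    {T U : ℤ} (hTdef : T = (C.card : ℤ)) (hT1 : 1 ≤ T) (hA : 53723 * T ≤ A)
    (hU1 : 1 ≤ U) (hU2 : U ≤ T + 1) (hU : ∀ c, U ≤ c → c ≤ 26861 * T → Plus F c U) : False := by
  classical
  -- untouched scales are convex
  have hPlus : ∀ t, 1 ≤ t → (∀ l, (t, l) ∉ C) → ∀ c, t ≤ c → c + 2 * t + 2 * U + 1 ≤ 26861 * T →
      Plus F c t := by
    intro t ht1 htC c0 hc1 hc2
    by_contra hcon
    have hpat := t_pattern F hF t c0 (A - t) (fun c h1 h2 l hl =>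
      htC l (hC c t l ht1 (by omega) (by omega) hl)) hcon
    exact t_link F hF U t (26861 * T - 2 * U - 2 * t) (26861 * T) hU1 ht1 (by omega)
      (fun c h1 h2 => hU c (by omega) h2) (fun c h1 h2 => hpat c (by omega) (by omega))
  have hglob : ∀ x, 1500 * T ≤ x → x ≤ 25896 * T → ∀ u, 48 * T < 3 * u → u ≤ 48 * T →
      ∃ t, 2 * u ≤ t ∧ 6 * t ≤ 13 * u ∧ ∀ c, x - 14 * u ≤ c → c ≤ x + 14 * u → Plus F c t := by
    intro x hx1 hx2 u hu1 hu2
    obtain ⟨t, h1, h2, h3⟩ := exists_untouched C (2 * u)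
    exact ⟨t, h1, by omega, fun c hc1 hc2 => hPlus t (by omega) h3 c (by omega) (by omega)⟩
  have hfst : (C.image Prod.fst).card ≤ C.card := Finset.card_image_le
  choose g hg1 hgL hgc hgS using fun x => exists_crit hF (show 1 ≤ 12 * T by omega) x
  -- few touched scales near any point
  have hcntT : ∀ x, 1500 * T ≤ x → x ≤ 25896 * T → ∀ S, 1 ≤ S → S ≤ 48 * T →
      (cnt (Nr F x) S : ℤ) ≤ T := by
    intro x hx1 hx2 S hS1 hS2
    have h1 : cnt (Nr F x) S ≤ (C.image Prod.fst).card := by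
      unfold cnt
      apply Finset.card_le_card
      intro u hu
      rw [Finset.mem_filter, Finset.mem_Ico] at hu
      obtain ⟨⟨h1, h2⟩, c, l, h3, h4, h5⟩ := hu
      exact Finset.mem_image.mpr ⟨(u, l), hC c u l (by omega) (by omega) (by omega) h5, rfl⟩
    omega
  have hcntB : ∀ x, 1500 * T ≤ x → x ≤ 25896 * T → ∀ S, 1 ≤ S →
      (cnt (BB F C (48 * T) x) S : ℤ) ≤ T := by
    intro x hx1 hx2 S hS1
    have h1 : cnt (BB F C (48 * T) x) S ≤ (C.image Prod.fst).card := by
      unfold cnt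
      apply Finset.card_le_card
      intro u hu
      rw [Finset.mem_filter, Finset.mem_Ico] at hu
      obtain ⟨⟨h1, h2⟩, h3⟩ := hu
      rcases h3 with ⟨h4, c, l, h5, h6, h7⟩ | ⟨h4, l, h5⟩
      · exact Finset.mem_image.mpr ⟨(u, l), hC c u l (by omega) (by omega) (by omega) h7, rfl⟩
      · exact Finset.mem_image.mpr ⟨(u, l), h5, rfl⟩
    omega
  have hNrS : ∀ x, 1500 * T ≤ x → x ≤ 25896 * T → ∀ S, g x < S → S ≤ 48 * T →
      12 * (cnt (Nr F x) S : ℤ) < S := by
    intro x hx1 hx2 S hS1 hS2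
    rcases le_or_gt S (12 * T) with h | h
    · exact hgS x S hS1 h
    · have := hg1 x
      have := hcntT x hx1 hx2 S (by omega) hS2
      omega
  have hCx : ∀ x G, 1500 * T ≤ x → x ≤ 25896 * T → 1 ≤ G → 4 * g x ≤ 5 * G →
      Cx F (BB F C (48 * T)) G (1500 * T) (26856 * T) x := by
    intro x G hx1 hx2 hG1 hG
    constructor
    · intro u c hu hGu hB hc1 hc2 hlo hhi
      rcases le_or_gt u (48 * T) with h | h
      · refine lemA hF (G := 5 * G / 4) (hglob x hx1 hx2)
          (fun S h1 h2 => hNrS x hx1 hx2 S (by omega) h2) u hu h (by omega) ?_ c hc1 hc2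
        intro hN
        exact hB (Or.inl ⟨h, hN⟩)
      · refine hPlus u hu ?_ c (by omega) (by omega)
        intro l hl
        exact hB (Or.inr ⟨h, l, hl⟩)
    · intro S hS
      rcases le_or_gt S (12 * T) with h | h
      · have h1 : cnt (BB F C (48 * T) x) S = cnt (Nr F x) S := by
          unfold cnt
          congr 1
          apply Finset.filter_congr
          intro u hu
          rw [Finset.mem_Ico] at hu
          constructor
          · rintro (⟨_, h3⟩ | ⟨h3, _⟩)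
            · exact h3
            · omega
          · intro h3
            exact Or.inl ⟨by omega, h3⟩
        rw [h1]
        exact hNrS x hx1 hx2 S (by omega) (by omega)
      · have := hcntB x hx1 hx2 S (by omega)
        omega
  obtain ⟨I, hI1, hI2, hI3⟩ := t_sel g (6780 * T) (20616 * T) (12 * T) (by omega) (by omega) hg1
    (fun x h1 h2 => hgL x)
  have hR : ∀ x, g x ≤ 12 * ((Rset F (BB F C (48 * T)) x (g x)).card : ℤ) := by
    intro x
    refine Rset_card (hgc x) ?_
    intro c v hv hB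
    have := hgL x
    rcases hB with ⟨_, h⟩ | ⟨h, _⟩
    · exact h
    · omega
  -- choice of the label
  have hlab : ∀ x v, ∃ l, v ∈ Rset F (BB F C (48 * T)) x (g x) →
      RL F (BB F C (48 * T)) x (g x) v l := by
    intro x v
    by_cases hv : v ∈ Rset F (BB F C (48 * T)) x (g x)
    · have hv' := hv
      unfold Rset at hv'
      rw [Finset.mem_filter] at hv'
      obtain ⟨l, hl⟩ := hv'.2
      exact ⟨l, fun _ => hl⟩
    · exact ⟨0, fun h => absurd h hv⟩
  choose lab hlab using hlab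
  have hlt : ∀ x ∈ I, ∀ y ∈ I, x < y → ∀ v, v ∈ Rset F (BB F C (48 * T)) x (g x) →
      v ∈ Rset F (BB F C (48 * T)) y (g y) → lab x v < lab y v := by
    intro x hx y hy hxy v hvx hvy
    have k1 := hI1 x hx
    have k2 := hgL x
    have k3 := hI1 y hy
    have k4 := hgL y
    have k5 := hg1 x
    have k6 := hg1 y
    exact order (lo := 1500 * T) (hi := 26856 * T) hF k5 k6
      (fun x' h1 h2 => hCx x' (g x) (by omega) (by omega) k5 (k1.2.2 x' h1 h2))
      (fun x' h1 h2 => hCx x' (g y) (by omega) (by omega) k6 (k3.2.2 x' h1 h2))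
      (hI2 x hx y hy hxy) (by omega) (by omega) (hlab x v hvx) (hlab y v hvy)
  have hsum : ∑ x ∈ I, (Rset F (BB F C (48 * T)) x (g x)).card ≤ C.card := by
    rw [← Finset.card_sigma]
    apply Finset.card_le_card_of_injOn (fun p : (_ : ℤ) × ℤ => (p.2, lab p.1 p.2))
    · rintro ⟨x, v⟩ hp
      rw [Finset.mem_coe, Finset.mem_sigma] at hp
      obtain ⟨hx, hv⟩ := hp
      obtain ⟨h1, h2, m, h3, h4, h5, _⟩ := hlab x v hv
      have k1 := hI1 x hx
      have k2 := hgL x
      have k3 := hg1 x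
      exact hC m v _ (by omega) (by omega) (by omega) h5
    · rintro ⟨x, v⟩ hp ⟨y, w⟩ hq heq
      rw [Finset.mem_coe, Finset.mem_sigma] at hp hq
      obtain ⟨hx, hv⟩ := hp
      obtain ⟨hy, hw⟩ := hq
      simp only at hx hv hy hw
      have e1 : v = w := congrArg Prod.fst heq
      have e2 : lab x v = lab y w := congrArg Prod.snd heq
      subst e1
      rcases lt_trichotomy x y with h | h | h
      · have := hlt x hx y hy h v hv hw
        omega
      · subst h
        rfl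
      · have := hlt y hy x hx h v hw hv
        omega
  have h1 : ∑ x ∈ I, g x ≤ ∑ x ∈ I, 12 * ((Rset F (BB F C (48 * T)) x (g x)).card : ℤ) :=
    Finset.sum_le_sum fun x _ => hR x
  rw [← Finset.mul_sum] at h1
  have h2 : ((∑ x ∈ I, (Rset F (BB F C (48 * T)) x (g x)).card : ℕ) : ℤ) ≤ (C.card : ℤ) := by
    exact_mod_cast hsum
  rw [Nat.cast_sum] at h2
  omega

/-- the reflected column function -/
def refl (F : ℤ → ℤ) (A : ℤ) : ℤ → ℤ := fun x => - F (A - 1 - x)

theorem refl_mono {F : ℤ → ℤ} (hF : Monotone F) (A : ℤ) : Monotone (refl F A) := by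
  intro x y hxy
  unfold refl
  have := hF (show A - 1 - y ≤ A - 1 - x by omega)
  linarith

theorem refl_tch {F : ℤ → ℤ} {A c u l : ℤ} (h : Tch (refl F A) c u l) : Tch F (A - c) u l := by
  obtain ⟨y, h1, h2, h3, h4, h5, h6⟩ := h
  unfold refl at h1 h2 h3 h4 h5 h6
  have e1 : A - 1 - (c - u - 1) = A - c + u := by ring
  have e2 : A - 1 - (c - u) = A - c + u - 1 := by ring
  have e3 : A - 1 - (c - 1) = A - c := by ring
  have e4 : A - 1 - c = A - c - 1 := by ring
  have e5 : A - 1 - (c + u - 1) = A - c - u := by ring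
  have e6 : A - 1 - (c + u) = A - c - u - 1 := by ring
  rw [e1] at h1
  rw [e2] at h2
  rw [e3] at h3
  rw [e4] at h4
  rw [e5] at h5
  rw [e6] at h6
  exact ⟨-y, by linarith, by linarith, by linarith, by linarith, by linarith, by linarith⟩

theorem refl_plus {F : ℤ → ℤ} {A c u : ℤ} (h : Minus F (A - c) u) : Plus (refl F A) c u := by
  unfold Minus at h
  unfold Plus refl
  have e1 : A - 1 - (c - u - 1) = A - c + u := by ring
  have e4 : A - 1 - c = A - c - 1 := by ring
  have e5 : A - 1 - (c + u - 1) = A - c - u := by ring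
  rw [e1, e4, e5]
  linarith

theorem main {F : ℤ → ℤ} (hF : Monotone F) {A : ℤ} {C : Finset (ℤ × ℤ)}
    (hC : ∀ c u l, 1 ≤ u → u ≤ c → c + u ≤ A → Tch F c u l → (u, l) ∈ C) :
    A ≤ 53723 * (C.card : ℤ) + 2 := by
  classical
  by_contra hcon
  push Not at hcon
  have hT : 1 ≤ C.card := by
    obtain ⟨c, l, h1, h2, h3⟩ := tch_one hF 1
    exact Finset.card_pos.mpr ⟨_, hC c 1 l le_rfl h1 (by omega) h3⟩
  obtain ⟨T, hTdef⟩ : ∃ T : ℤ, T = (C.card : ℤ) := ⟨_, rfl⟩
  have hT1 : 1 ≤ T := by omega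
  have hA : 53723 * T ≤ A := by omega
  obtain ⟨U, hU1, hU2, hU3⟩ := exists_untouched C 1
  by_cases hall : ∀ c, U ≤ c → c ≤ 26861 * T → Plus F c U
  · exact main_aux hF hC hTdef hT1 hA hU1 (by omega) hall
  · push Not at hall
    obtain ⟨c0, hc1, hc2, hc3⟩ := hall
    have hpat := t_pattern F hF U c0 (A - U) (fun c h1 h2 l hl =>
      hU3 l (hC c U l hU1 (by omega) (by omega) hl)) hc3
    refine main_aux (F := refl F A) (refl_mono hF A) ?_ hTdef hT1 hA hU1 (by omega) ?_
    · intro c u l h1 h2 h3 h4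
      exact hC (A - c) u l h1 (by omega) (by omega) (refl_tch h4)
    · intro c h1 h2
      exact refl_plus (hpat (A - c) (by omega) (by omega))

end Pool.Agent.H188.LC
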