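import Pool.Agent.H188.LC.LemA

set_option autoImplicit false

namespace Pool.Agent.H188.LC

open Pool.Agent.H188.LB hiding S_good Nr t_good

/-- The scales `u` with `¬ BB x u` are convex near `x` (inside `[lo, hi]`), and there are many of
them above the critical scale `g`. -/
def Cx (F : ℤ → ℤ) (BB : ℤ → ℤ → Prop) (g lo hi x : ℤ) : Prop :=
  (∀ u c, 1 ≤ u → 5 * g < 8 * u → ¬ BB x u → x - 7 * u ≤ c → c ≤ x + 7 * u →
    lo ≤ c - u → c + 2 * u ≤ hi → Plus F c u) ∧
  (∀ S, 5 * g < 4 * S → 12 * (cnt (BB x) S : ℤ) < S)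

/-- a touched scale `v` recorded at the point `x` with critical scale `g` -/
def RL (F : ℤ → ℤ) (BB : ℤ → ℤ → Prop) (x g v l : ℤ) : Prop :=
  g ≤ v ∧ v < 4 * g ∧ ∃ m, x - 84 * g ≤ m ∧ m ≤ x + 84 * g ∧ Tch F m v l ∧
    (¬ BB m (2 * v) ∨ 2 * g ≤ v)

theorem order {F : ℤ → ℤ} (hF : Monotone F) {BB : ℤ → ℤ → Prop}
    {lo hi x1 x2 g1 g2 u l1 l2 : ℤ} (hg1 : 1 ≤ g1) (hg2 : 1 ≤ g2)
    (hC1 : ∀ x', x1 - 88 * g1 ≤ x' → x' ≤ x1 + 88 * g1 → Cx F BB g1 lo hi x')
    (hC2 : ∀ x', x2 - 88 * g2 ≤ x' → x' ≤ x2 + 88 * g2 → Cx F BB g2 lo hi x')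
    (hsep : 112 * (g1 + g2) < x2 - x1)
    (hlo : lo ≤ x1 - 88 * g1) (hhi : x2 + 88 * g2 + 40 * (g1 + g2) ≤ hi)
    (h1 : RL F BB x1 g1 u l1) (h2 : RL F BB x2 g2 u l2) : l1 < l2 := by
  obtain ⟨hu1, hu1', m1, hm1, hm1', ⟨y1, a1, a2, a3, a4, a5, a6⟩, hN1⟩ := h1
  obtain ⟨hu2, hu2', m2, hm2, hm2', ⟨y2, b1, b2, b3, b4, b5, b6⟩, hN2⟩ := h2
  obtain ⟨a, ha⟩ : ∃ a, a = m1 - u := ⟨_, rfl⟩
  obtain ⟨b, hb⟩ : ∃ b, b = m2 + u := ⟨_, rfl⟩
  have Ca := hC1 a (by omega) (by omega)
  have Cb := hC2 b (by omega) (by omega)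
  have Cm1 := hC1 m1 (by omega) (by omega)
  have Cm2 := hC2 m2 (by omega) (by omega)
  have hab : 24 * (g1 + g2) ≤ b - a := by omega
  have hlo' : lo ≤ a := by omega
  have hhi' : b ≤ hi := by omega
  have hα : F (a - 1) ≤ y1 - l1 := by rw [ha]; exact a1
  have hβ : F (b - 1) ≤ y2 + l2 := by rw [hb]; exact b5
  obtain ⟨R1, R2, R3⟩ := t_reg F hF a b (y1 - l1) (y2 + l2) g1 g2 hg1 hg2 hab hα hβ
    (by
      intro d hd hd2
      obtain ⟨φ, p1, p2, p3⟩ := (t_good (BB a) g1 (2 * d + 1) d hg1 hd (fun S h _ => Ca.2 S h)).1 (by omega)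
      exact ⟨φ, p1, p2, Ca.1 φ _ (by omega) (by omega) p3 (by omega) (by omega)
        (by omega) (by omega)⟩)
    (by
      intro d hd hd2
      obtain ⟨φ, p1, p2, p3, p4, p5⟩ := (t_good (BB a) g1 (2 * d + 1) d hg1 hd (fun S h _ => Ca.2 S h)).2 (by omega)
      exact ⟨φ, p1, p2, Ca.1 φ _ (by omega) (by omega) p3 (by omega) (by omega)
          (by omega) (by omega),
        Ca.1 (d - φ) _ (by omega) (by omega) p4 (by omega) (by omega)
          (by omega) (by omega),
        Ca.1 (d + φ) _ (by omega) (by omega) p5 (by omega) (by omega)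
          (by omega) (by omega)⟩)
    (by
      intro d hd hd2
      obtain ⟨φ, p1, p2, p3⟩ := (t_good (BB b) g2 (2 * d + 1) d hg2 hd (fun S h _ => Cb.2 S h)).1 (by omega)
      exact ⟨φ, p1, p2, Cb.1 φ _ (by omega) (by omega) p3 (by omega) (by omega)
        (by omega) (by omega)⟩)
    (by
      intro d hd hd2
      obtain ⟨φ, p1, p2, p3, p4, p5⟩ := (t_good (BB b) g2 (2 * d + 1) d hg2 hd (fun S h _ => Cb.2 S h)).2 (by omega)
      exact ⟨φ, p1, p2, Cb.1 φ _ (by omega) (by omega) p3 (by omega) (by omega)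
          (by omega) (by omega),
        Cb.1 (d - φ) _ (by omega) (by omega) p4 (by omega) (by omega)
          (by omega) (by omega),
        Cb.1 (d + φ) _ (by omega) (by omega) p5 (by omega) (by omega)
          (by omega) (by omega)⟩)
  obtain ⟨W, hW⟩ : ∃ W, W = b - a := ⟨_, rfl⟩
  obtain ⟨δ, hδ⟩ : ∃ δ, δ = y2 + l2 - (y1 - l1) := ⟨_, rfl⟩
  have hWpos : 0 < W := by omega
  rw [← hW, ← hδ] at R1 R2 R3
  have claim1 : W * (2 * l1) < δ * (2 * u) := by
    have hle : W * (2 * l1) ≤ W * (F (a + 2 * u) - (y1 - l1)) := by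
      apply mul_le_mul_of_nonneg_left _ hWpos.le
      have e : a + 2 * u = m1 + u := by omega
      rw [e]
      linarith
    refine lt_of_le_of_lt hle ?_
    rcases lt_or_ge u (2 * g1) with hlt | hge
    · have hNr : ¬ BB m1 (2 * u) := by
        rcases hN1 with h | h
        · exact h
        · omega
      have hP : Plus F (a + 2 * u) (2 * u) := Cm1.1 (2 * u) _ (by omega) (by omega) hNr
        (by omega) (by omega) (by omega) (by omega)
      unfold Plus at hP
      have e1 : a + 2 * u - 2 * u - 1 = a - 1 := by ring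
      have e2 : a + 2 * u + 2 * u - 1 = a + 4 * u - 1 := by ring
      rw [e1, e2] at hP
      have hz := R1 (a + 4 * u) (by omega) (by omega)
      have e3 : a + 4 * u - a = 4 * u := by ring
      rw [e3] at hz
      have h3 : 2 * (W * (F (a + 2 * u) - (y1 - l1))) + W ≤ W * (F (a + 4 * u - 1) - (y1 - l1)) := by
        have := mul_le_mul_of_nonneg_left (show 2 * (F (a + 2 * u) - (y1 - l1)) + 1 ≤
          F (a + 4 * u - 1) - (y1 - l1) by linarith) hWpos.le
        linarith
      linarith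
    · exact R2 (2 * u) (by omega) (by omega)
  have claim2 : δ * (2 * u) < W * (2 * l2) := by
    have hle : W * (-(2 * l2)) ≤ W * (F (b - 2 * u) - (y2 + l2)) := by
      apply mul_le_mul_of_nonneg_left _ hWpos.le
      have e : b - 2 * u = m2 - u := by omega
      rw [e]
      linarith
    have hlt2 : W * (F (b - 2 * u) - (y2 + l2)) < -(δ * (2 * u)) := by
      rcases lt_or_ge u (2 * g2) with hlt | hge
      · have hNr : ¬ BB m2 (2 * u) := by
          rcases hN2 with h | h
          · exact h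
          · omega
        have hP : Plus F (b - 2 * u) (2 * u) := Cm2.1 (2 * u) _ (by omega) (by omega)
          hNr (by omega) (by omega) (by omega) (by omega)
        unfold Plus at hP
        have e1 : b - 2 * u - 2 * u - 1 = b - 4 * u - 1 := by ring
        have e2 : b - 2 * u + 2 * u - 1 = b - 1 := by ring
        rw [e1, e2] at hP
        have hz := R1 (b - 4 * u) (by omega) (by omega)
        have e3 : b - 4 * u - a = W - 4 * u := by omega
        rw [e3] at hz
        have h3 : 2 * (W * (F (b - 2 * u) - (y2 + l2))) + W ≤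
            W * (F (b - 4 * u - 1) - (y1 - l1)) - W * δ := by
          have := mul_le_mul_of_nonneg_left (show 2 * (F (b - 2 * u) - (y2 + l2)) + 1 ≤
            F (b - 4 * u - 1) - (y1 - l1) - δ by linarith) hWpos.le
          linarith
        nlinarith
      · exact R3 (2 * u) (by omega) (by omega)
    linarith
  have h4 : W * (2 * l1) < W * (2 * l2) := lt_trans claim1 claim2
  have h5 := lt_of_mul_lt_mul_left h4 hWpos.le
  linarith

end Pool.Agent.H188.LC
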